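import Pool.Agent.H78.STN.Stmts

/-!
# Board STN, row CBD
-/

set_option autoImplicit false

open Polynomial

namespace Pool.STN

/-- `D` dominates `A` coefficientwise -/
def cbd_dom (A D : ℤ[X]) : Prop := ∀ j : ℕ, |A.coeff j| ≤ D.coeff j

theorem cbd_mul {A B D E : ℤ[X]} (h1 : cbd_dom A D) (h2 : cbd_dom B E) : cbd_dom (A * B) (D * E) := by
  intro j
  rw [coeff_mul, coeff_mul]
  refine le_trans (Finset.abs_sum_le_sum_abs _ _) (Finset.sum_le_sum fun p _ => ?_)
  rw [abs_mul]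
  exact mul_le_mul (h1 p.1) (h2 p.2) (abs_nonneg _) (le_trans (abs_nonneg _) (h1 p.1))

theorem cbd_one : cbd_dom 1 1 := by
  intro j
  rw [coeff_one]
  by_cases h : j = 0
  · rw [if_pos h]
    norm_num
  · rw [if_neg h]
    norm_num

theorem cbd_pow {A D : ℤ[X]} (h : cbd_dom A D) (n : ℕ) : cbd_dom (A ^ n) (D ^ n) := by
  induction n with
  | zero =>
    rw [pow_zero, pow_zero]
    exact cbd_one
  | succ n ih =>
    rw [pow_succ, pow_succ]
    exact cbd_mul ih h

theorem cbd_lin (a : ℤ) (ha : 0 ≤ a) : cbd_dom (X - C a) (X + C a) := by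
  intro j
  rw [coeff_sub, coeff_add, coeff_X, coeff_C]
  by_cases h0 : j = 0
  · subst h0
    have h1 : ¬ (1 = 0) := by norm_num
    rw [if_neg h1, if_pos rfl, zero_sub, zero_add, abs_neg, abs_of_nonneg ha]
  · rw [if_neg h0, sub_zero, add_zero]
    by_cases h1 : 1 = j
    · rw [if_pos h1]
      norm_num
    · rw [if_neg h1]
      norm_num

theorem cbd_eval {A D : ℤ[X]} (h : cbd_dom A D) (j : ℕ) : |A.coeff j| * 7 ^ j ≤ D.eval 7 := by
  have h0 : ∀ i, 0 ≤ D.coeff i := fun i => le_trans (abs_nonneg _) (h i)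
  have h7 : ∀ i : ℕ, (0 : ℤ) ≤ 7 ^ i := fun i => pow_nonneg (by norm_num) i
  refine le_trans (mul_le_mul_of_nonneg_right (h j) (h7 j)) ?_
  rw [eval_eq_sum_range]
  by_cases hj : j ∈ Finset.range (D.natDegree + 1)
  · exact Finset.single_le_sum (f := fun i => D.coeff i * 7 ^ i)
      (fun i _ => mul_nonneg (h0 i) (h7 i)) hj
  · have h1 : D.natDegree < j := by
      by_contra h2
      exact hj (Finset.mem_range.mpr (by omega))
    rw [coeff_eq_zero_of_natDegree_lt h1, zero_mul]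
    exact Finset.sum_nonneg fun i _ => mul_nonneg (h0 i) (h7 i)

theorem CBD_thm : CBDStmt := by
  intro n j
  have h1 : cbd_dom Pz ((X + C 6) ^ 3 * (X + C 8) ^ 2 * (X + C 9)) :=
    cbd_mul (cbd_mul (cbd_pow (cbd_lin 6 (by norm_num)) 3) (cbd_pow (cbd_lin 8 (by norm_num)) 2))
      (cbd_lin 9 (by norm_num))
  refine le_trans (cbd_eval (cbd_pow h1 n) j) (le_of_eq ?_)
  simp only [eval_pow, eval_mul, eval_add, eval_X, eval_C]
  norm_num

end Pool.STN
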